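import Pool.Agent.MWNP.Stmts

/-!
Block MWNP, row PH3 (MP_23468a_al): without `J 3` the system h3 holds, period `n` (helper16; the twin
of helper73's NH3).
-/

namespace Pool.Agent.MWNP.H16

open Pool.Agent.Helper14_MV Pool.Agent.Helper2_MV Pool.Agent.MVO Pool.Agent.MWL Pool.Agent.MWS
  Pool.Agent.MWF Pool.Agent.MWN

/-- exchange of the letters `0` and `1` -/
def sw (c : ℕ) : List ℕ := if c = 0 then [1] else if c = 1 then [0] else [c]

/-- exchange of the letters `0` and `1`, the letter `3` deleted -/
def sw3 (c : ℕ) : List ℕ := if c = 0 then [1] else if c = 1 then [0] else if c = 3 then [] else [c]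

/-- the letter `2` deleted, `3` becomes `2` -/
def dl2 (c : ℕ) : List ℕ := if c = 2 then [] else if c = 3 then [2] else [c]

/-- `m` letters `0` in front of the letter `2` -/
def fr2 (m : ℕ) (c : ℕ) : List ℕ := if c = 2 then List.replicate m 0 ++ [2] else [c]

/-- two blocks -/
def b2 (l m : List ℕ) : ℕ → List ℕ := fun j => if j = 0 then l else if j = 1 then m else []

theorem two_b2 {l m : List ℕ} (h : ∀ c ∈ l ++ m, c = 0 ∨ c = 1) : Two01 1 (b2 l m) := by
  intro j hj c hc
  have hj' : j = 0 ∨ j = 1 := by omega
  rcases hj' with rfl | rfl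
  · exact h c (List.mem_append_left _ hc)
  · exact h c (List.mem_append_right _ hc)

theorem ok_b2 {l m : List ℕ} (h : ∀ c ∈ l ++ m, c = 0 ∨ c = 1)
    (h0 : 2 ≤ (l ++ m).count 0) (h1 : 2 ≤ (l ++ m).count 1) : OkB 1 (b2 l m) := by
  have e : ∀ c, deg 1 (ty (b2 l m) c) = (l ++ m).count c := by
    intro c
    rw [List.count_append]
    simp [deg, Finset.sum_range_succ, ty, b2]
  constructor
  · intro j hj c hc hs
    have := two_b2 h j hj c hc
    omega
  · intro j hj c hc
    have h2 := two_b2 h j hj c hc
    have h3 : 2 ≤ deg 1 (ty (b2 l m) c) := by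
      rcases h2 with rfl | rfl
      · rw [e]; exact h0
      · rw [e]; exact h1
    exact h3

theorem hst2 {n : ℕ} {β : FIC} (hB : HBP n β) {l m l' m' : List ℕ}
    (h : ∀ c ∈ l ++ m, c = 0 ∨ c = 1) (h' : ∀ c ∈ l' ++ m', c = 0 ∨ c = 1)
    (h0 : 2 ≤ (l ++ m).count 0) (h1 : 2 ≤ (l ++ m).count 1)
    (h0' : 2 ≤ (l' ++ m').count 0) (h1' : 2 ≤ (l' ++ m').count 1)
    (e0 : l.count 0 = l'.count 0 ∨
      (2 ≤ l.count 0 ∧ 2 ≤ l'.count 0 ∧ l.count 0 ≡ l'.count 0 [MOD n]))
    (e1 : l.count 1 = l'.count 1 ∨
      (2 ≤ l.count 1 ∧ 2 ≤ l'.count 1 ∧ l.count 1 ≡ l'.count 1 [MOD n]))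
    (e2 : m.count 0 = m'.count 0 ∨
      (2 ≤ m.count 0 ∧ 2 ≤ m'.count 0 ∧ m.count 0 ≡ m'.count 0 [MOD n]))
    (e3 : m.count 1 = m'.count 1 ∨
      (2 ≤ m.count 1 ∧ 2 ≤ m'.count 1 ∧ m.count 1 ≡ m'.count 1 [MOD n]))
    (s0 : (Fst false l ↔ Fst false l') ∧ (Fst true l ↔ Fst true l'))
    (s1 : (Fst false m ↔ Fst false m') ∧ (Fst true m ↔ Fst true m')) :
    RR β (l ++ 2 :: m) (l' ++ 2 :: m') := by
  have key := hB.hst 1 (b2 l m) (b2 l' m') (ok_b2 h h0 h1) (ok_b2 h' h0' h1') (two_b2 h)
    (two_b2 h') (by
      intro j hj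
      have hj' : j = 0 ∨ j = 1 := by omega
      rcases hj' with rfl | rfl
      · exact e0
      · exact e2) (by
      intro j hj
      have hj' : j = 0 ∨ j = 1 := by omega
      rcases hj' with rfl | rfl
      · exact e1
      · exact e3) (by
      intro j hj _
      have hj' : j = 0 ∨ j = 1 := by omega
      rcases hj' with rfl | rfl
      · exact s0
      · exact s1)
  exact key

/-- `[a, b]` is not a subword of `b a^m` if `a ≠ b` -/
theorem not_sub {a b : ℕ} (hab : a ≠ b) (m : ℕ) :
    ¬ List.Sublist [a, b] (b :: List.replicate m a) := by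
  intro h
  have h1 : List.Sublist [a, b] (List.replicate m a) := by
    cases h with
    | cons _ h => exact h
    | cons_cons _ h => exact absurd rfl hab
  have h2 : b ∈ List.replicate m a := h1.subset (by simp)
  exact hab (List.eq_of_mem_replicate h2).symm

theorem sub_app {a b : ℕ} {l : List ℕ} (r : List ℕ) (h : List.Sublist [a, b] l) :
    List.Sublist [a, b] (l ++ r) :=
  h.trans (List.sublist_append_left l r)

theorem mod2 (n : ℕ) : n + 2 ≡ 2 [MOD n] := by
  simp [Nat.ModEq]

theorem ph3 (p4a : P4aStmt) (p4b : P4bStmt) (p4c : P4cStmt) (p4d : P4dStmt) (p4e : P4eStmt) :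
    Ph3Stmt := by
  intro n β hB hI hM hJ
  have hn := hB.pos
  have ha : RR β [1, 0, 2, 0, 3, 1, 1] [0, 1, 2, 0, 3, 1, 1] :=
    RR.sub sw (p4a n β hB hI hM hJ)
  have hb : RR β [0, 2, 1, 0, 3, 1, 1] [0, 2, 0, 1, 3, 1, 1] :=
    RR.sub sw (p4b n β hB hI hM hJ)
  have hb3 : RR β [0, 2, 1, 0, 1, 1] [0, 2, 0, 1, 1, 1] :=
    RR.sub sw3 (p4b n β hB hI hM hJ)
  have hc : RR β [0, 1, 2, 0, 0, 3, 1] [1, 0, 2, 0, 0, 3, 1] := p4c n β hB hI hM hJ
  have hc2 : RR β [0, 1, 0, 0, 2, 1] [1, 0, 0, 0, 2, 1] := RR.sub dl2 (p4c n β hB hI hM hJ)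
  have hd : RR β [0, 0, 1, 2, 1] [0, 1, 0, 2, 1] := p4d n β hB hI hM hJ
  have he : RR β [0, 2, 1, 1, 0] [0, 2, 1, 0, 1] := RR.sub sw (p4e n β hB hI hM hJ)
  obtain ⟨m, rfl⟩ : ∃ m, n = m + 1 := ⟨n - 1, by omega⟩
  refine ⟨RR.symm ha, RR.symm hb, hc, ?_, ?_⟩
  · have hc3 : RR β ([0, 1] ++ List.replicate (m + 2) 0 ++ 2 :: [1])
        ([1] ++ List.replicate (m + 3) 0 ++ 2 :: [1]) := by
      have h := RR.sub (fr2 m) hc2
      have e1 : ([0, 1, 0, 0, 2, 1] : List ℕ).flatMap (fr2 m) =
          [0, 1] ++ List.replicate (m + 2) 0 ++ 2 :: [1] := by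
        simp [fr2, List.replicate_succ]
      have e2 : ([1, 0, 0, 0, 2, 1] : List ℕ).flatMap (fr2 m) =
          [1] ++ List.replicate (m + 3) 0 ++ 2 :: [1] := by
        simp [fr2, List.replicate_succ]
      have h' : RR β (([0, 1, 0, 0, 2, 1] : List ℕ).flatMap (fr2 m))
        (([1, 0, 0, 0, 2, 1] : List ℕ).flatMap (fr2 m)) := h
      rw [e1, e2] at h'
      exact h'
    have h1 : RR β ([0, 1, 0] ++ 2 :: [1]) ([0, 1] ++ List.replicate (m + 2) 0 ++ 2 :: [1]) := by
      apply hst2 hB
      · decide
      · intro c hc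
        simp at hc
        omega
      · decide
      · decide
      · simp [List.count_replicate]
      · simp [List.count_replicate]
      · right
        refine ⟨by decide, by simp [List.count_replicate], ?_⟩
        have e : (([0, 1] : List ℕ) ++ List.replicate (m + 2) 0).count 0 = (m + 1) + 2 := by
          simp [List.count_replicate]
        rw [e]
        exact (mod2 (m + 1)).symm
      · left
        simp [List.count_replicate]
      · left; rfl
      · left; rfl
      · constructor
        · unfold Fst
          refine not_congr ⟨fun _ => ?_, fun _ => by decide⟩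
          have : List.Sublist [1, 0] (([0, 1, 0] : List ℕ) ++ List.replicate (m + 1) 0) :=
            sub_app _ (by decide)
          simpa [List.replicate_succ] using this
        · unfold Fst
          refine not_congr ⟨fun _ => ?_, fun _ => by decide⟩
          exact sub_app _ (by decide)
      · exact ⟨Iff.rfl, Iff.rfl⟩
    have h2 : RR β ([1] ++ List.replicate (m + 3) 0 ++ 2 :: [1]) ([1, 0, 0] ++ 2 :: [1]) := by
      apply hst2 hB
      · intro c hc
        simp at hc
        omega
      · decide
      · simp [List.count_replicate]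
      · simp [List.count_replicate]
      · decide
      · decide
      · right
        refine ⟨by simp [List.count_replicate], by decide, ?_⟩
        have e : (([1] : List ℕ) ++ List.replicate (m + 3) 0).count 0 = (m + 1) + 2 := by
          simp [List.count_replicate]
        rw [e]
        exact mod2 (m + 1)
      · left
        simp [List.count_replicate]
      · left; rfl
      · left; rfl
      · constructor
        · unfold Fst
          refine not_congr ⟨fun _ => by decide, fun _ => ?_⟩
          have : List.Sublist [1, 0] (([1, 0] : List ℕ) ++ List.replicate (m + 2) 0) :=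
            sub_app _ (by decide)
          simpa [List.replicate_succ] using this
        · unfold Fst
          refine not_congr ⟨fun h => absurd h ?_, fun h => absurd h (by decide)⟩
          exact not_sub (by decide) (m + 3)
      · exact ⟨Iff.rfl, Iff.rfl⟩
    exact β.trans hd (β.trans h1 (β.trans hc3 h2))
  · have hb4 : RR β ([0] ++ 2 :: ([0] ++ List.replicate (m + 3) 1))
        ([0] ++ 2 :: ([1, 0] ++ List.replicate (m + 2) 1)) := by
      have h := RR.append (RR.symm hb3) (RR.refl (List.replicate m 1))
      have e1 : ([0, 2, 0, 1, 1, 1] : List ℕ) ++ List.replicate m 1 =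
          [0] ++ 2 :: ([0] ++ List.replicate (m + 3) 1) := by
        simp [List.replicate_succ]
      have e2 : ([0, 2, 1, 0, 1, 1] : List ℕ) ++ List.replicate m 1 =
          [0] ++ 2 :: ([1, 0] ++ List.replicate (m + 2) 1) := by
        simp [List.replicate_succ]
      rw [e1, e2] at h
      exact h
    have h1 : RR β ([0] ++ 2 :: [0, 1, 1]) ([0] ++ 2 :: ([0] ++ List.replicate (m + 3) 1)) := by
      apply hst2 hB
      · decide
      · intro c hc
        simp at hc
        omega
      · decide
      · decide
      · simp [List.count_replicate]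
      · simp [List.count_replicate]
      · left; rfl
      · left; rfl
      · left
        simp [List.count_replicate]
      · right
        refine ⟨by decide, by simp [List.count_replicate], ?_⟩
        have e : (([0] : List ℕ) ++ List.replicate (m + 3) 1).count 1 = (m + 1) + 2 := by
          simp [List.count_replicate]
        rw [e]
        exact (mod2 (m + 1)).symm
      · exact ⟨Iff.rfl, Iff.rfl⟩
      · constructor
        · unfold Fst
          refine not_congr ⟨fun h => absurd h (by decide), fun h => absurd h ?_⟩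
          exact not_sub (by decide) (m + 3)
        · unfold Fst
          refine not_congr ⟨fun _ => ?_, fun _ => by decide⟩
          have : List.Sublist [0, 1] (([0, 1] : List ℕ) ++ List.replicate (m + 2) 1) :=
            sub_app _ (by decide)
          simpa [List.replicate_succ] using this
    have h2 : RR β ([0] ++ 2 :: ([1, 0] ++ List.replicate (m + 2) 1)) ([0] ++ 2 :: [1, 0, 1]) := by
      apply hst2 hB
      · intro c hc
        simp at hc
        omega
      · decide
      · simp [List.count_replicate]
      · simp [List.count_replicate]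
      · decide
      · decide
      · left; rfl
      · left; rfl
      · left
        simp [List.count_replicate]
      · right
        refine ⟨by simp [List.count_replicate], by decide, ?_⟩
        have e : (([1, 0] : List ℕ) ++ List.replicate (m + 2) 1).count 1 = (m + 1) + 2 := by
          simp [List.count_replicate]
        rw [e]
        exact mod2 (m + 1)
      · exact ⟨Iff.rfl, Iff.rfl⟩
      · constructor
        · unfold Fst
          refine not_congr ⟨fun _ => by decide, fun _ => ?_⟩
          exact sub_app _ (by decide)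
        · unfold Fst
          refine not_congr ⟨fun _ => by decide, fun _ => ?_⟩
          have : List.Sublist [0, 1] (([1, 0, 1] : List ℕ) ++ List.replicate (m + 1) 1) :=
            sub_app _ (by decide)
          simpa [List.replicate_succ] using this
    exact β.trans h1 (β.trans hb4 (β.trans h2 (RR.symm he)))

end Pool.Agent.MWNP.H16
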